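import Pool.Agent.N637.SLX.Stm2

/-!
# SLX/INJ: the coordinates determine the vectors
-/

set_option autoImplicit false

open scoped Classical

namespace Pool.Agent.N134.SLX

open Finset
open Pool.Agent.N637.SLX
open Pool.Agent.N916.GB (Po Vt)

lemma z2_ext {a b : ZMod 2} (h : a = 1 ↔ b = 1) : a = b := by
  revert a b; decide

lemma vt_prime {t : Bool} {S : Finset ℕ} (hS : ∀ p ∈ S, Po p) (p : {x : ℕ // x ∈ Vt t S}) :
    p.1.Prime := by
  have h := p.2
  unfold Vt at h
  split_ifs at h with ht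
  · rcases mem_insert.1 h with h | h
    · rw [h]; exact Nat.prime_two
    · exact (hS _ h).1
  · exact (hS _ h).1

/-- divisibility of a product over a subset -/
lemma dvd_iff {V : Type} [Fintype V] (f : V → ℤ) (x : V → ZMod 2) {P : ℤ} (hP : Prime P) (p : V)
    (h : ∀ q, P ∣ f q ↔ q = p) : P ∣ (∏ q : V, if x q = 1 then f q else 1) ↔ x p = 1 := by
  rw [hP.dvd_finsetProd_iff]
  constructor
  · rintro ⟨q, _, hq⟩
    split_ifs at hq with h1
    · rw [(h q).1 hq] at h1
      exact h1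
    · exact absurd hq hP.not_dvd_one
  · intro h1
    refine ⟨p, mem_univ _, ?_⟩
    rw [if_pos h1]
    exact (h p).2 rfl

lemma int_prime {p : ℕ} (hp : p.Prime) : Prime (p : ℤ) := Nat.prime_iff_prime_int.1 hp

lemma dvd_prime {p q : ℕ} (hp : p.Prime) (hq : q.Prime) : (p : ℤ) ∣ (q : ℤ) ↔ q = p := by
  rw [Int.natCast_dvd_natCast, Nat.prime_dvd_prime_iff_eq hp hq]
  exact eq_comm

lemma dvd_pdr (r s : ZMod 2) {p q : ℕ} (hp : p.Prime) (hp2 : p ≠ 2) (hq : q.Prime) :
    (p : ℤ) ∣ pdr r s q ↔ q = p := by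
  unfold pdr
  have h2 : ¬ (p : ℤ) ∣ 2 := by
    intro h
    have : (p : ℤ) ∣ ((2 : ℕ) : ℤ) := h
    rw [Int.natCast_dvd_natCast, Nat.prime_dvd_prime_iff_eq hp Nat.prime_two] at this
    exact hp2 this
  by_cases hq2 : q = 2
  · subst hq2
    rw [if_pos rfl]
    constructor
    · intro h
      exfalso
      split_ifs at h
      · exact h2 h
      · rw [dvd_neg] at h
        exact (int_prime hp).not_dvd_one h
      · rw [dvd_neg] at h
        exact h2 h
    · intro h
      exact absurd h.symm hp2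
  · rw [if_neg hq2]
    split_ifs
    · exact dvd_prime hp hq
    · rw [dvd_neg]
      exact dvd_prime hp hq

lemma pdr_two (r s : ZMod 2) : pdr r s 2 ≠ 1 := by
  unfold pdr
  rw [if_pos rfl]
  split_ifs <;> norm_num

lemma pdr_ne (r s : ZMod 2) {p : ℕ} (hp : p.Prime) : pdr r s p ≠ 0 := by
  have h0 : (p : ℤ) ≠ 0 := by exact_mod_cast hp.ne_zero
  unfold pdr
  split_ifs
  · norm_num
  · norm_num
  · norm_num
  · exact h0
  · exact neg_ne_zero.2 h0

/-- SLX-INJ -/
theorem t_INJ : S_INJ := by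
  intro t r s S m hTy x y x' y' hX hY
  have hpr : ∀ p : {x : ℕ // x ∈ Vt t S}, p.1.Prime := vt_prime hTy.po
  have hy : y = y' := by
    funext p
    apply z2_ext
    have h : ∀ q : {x : ℕ // x ∈ Vt t S}, ((p.1 : ℕ) : ℤ) ∣ ((q.1 : ℕ) : ℤ) ↔ q = p := by
      intro q
      rw [dvd_prime (hpr p) (hpr q), Subtype.ext_iff]
    have h1 := dvd_iff (fun q : {x : ℕ // x ∈ Vt t S} => ((q.1 : ℕ) : ℤ)) y (int_prime (hpr p)) p h
    have h2 := dvd_iff (fun q : {x : ℕ // x ∈ Vt t S} => ((q.1 : ℕ) : ℤ)) y' (int_prime (hpr p)) p h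
    rw [← h1, ← h2]
    unfold dY at hY
    rw [hY]
  subst hy
  refine ⟨?_, rfl⟩
  unfold dX at hX
  have hj : (if ∑ q, ES t r s S q * y q = 1 then (-7 : ℤ) else 1) ≠ 0 := by
    split_ifs <;> norm_num
  have hprod := mul_right_cancel₀ hj hX
  have hodd : ∀ p : {x : ℕ // x ∈ Vt t S}, p.1 ≠ 2 → x p = x' p := by
    intro p hp2
    apply z2_ext
    have h : ∀ q : {x : ℕ // x ∈ Vt t S}, ((p.1 : ℕ) : ℤ) ∣ pdr r s q.1 ↔ q = p := by
      intro q
      rw [dvd_pdr r s (hpr p) hp2 (hpr q), Subtype.ext_iff]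
    have h1 := dvd_iff (fun q : {x : ℕ // x ∈ Vt t S} => pdr r s q.1) x (int_prime (hpr p)) p h
    have h2 := dvd_iff (fun q : {x : ℕ // x ∈ Vt t S} => pdr r s q.1) x' (int_prime (hpr p)) p h
    rw [← h1, ← h2, hprod]
  funext p
  by_cases hp2 : p.1 = 2
  · rw [← Finset.mul_prod_erase univ _ (mem_univ p), ← Finset.mul_prod_erase univ
      (fun p : {x : ℕ // x ∈ Vt t S} => if x' p = 1 then pdr r s p.1 else 1) (mem_univ p)] at hprod
    have he : (∏ q ∈ univ.erase p, if x q = 1 then pdr r s q.1 else 1) =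
        ∏ q ∈ univ.erase p, if x' q = 1 then pdr r s q.1 else 1 := by
      refine Finset.prod_congr rfl fun q hq => ?_
      rw [hodd q (fun h => (mem_erase.1 hq).1 (Subtype.ext (h.trans hp2.symm)))]
    have hne : (∏ q ∈ univ.erase p, if x' q = 1 then pdr r s q.1 else 1) ≠ 0 := by
      refine Finset.prod_ne_zero_iff.2 fun q _ => ?_
      split_ifs
      · exact pdr_ne r s (hpr q)
      · exact one_ne_zero
    rw [he] at hprod
    have h3 := mul_right_cancel₀ hne hprod
    apply z2_ext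
    have h4 : pdr r s p.1 ≠ 1 := by rw [hp2]; exact pdr_two r s
    constructor
    · intro h
      by_contra h'
      rw [if_pos h, if_neg h'] at h3
      exact h4 h3
    · intro h
      by_contra h'
      rw [if_pos h, if_neg h'] at h3
      exact h4 h3.symm
  · exact hodd p hp2

end Pool.Agent.N134.SLX
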