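import Pool.Agent.N637.SLX.Stm2

/-!
# SLX/LIN: the number of the solutions of two linear systems
-/

set_option autoImplicit false

open scoped Classical

namespace Pool.Agent.N134.SLX

open Finset
open Pool.Agent.N637.SLX

/-- the character of `ZMod 2` -/
def ch (a : ZMod 2) : ℤ := if a = 0 then 1 else -1

lemma ch_add (a b : ZMod 2) : ch (a + b) = ch a * ch b := by
  revert a b; decide

lemma ch_zero : ch 0 = 1 := rfl

lemma ne_zero_iff_one (a : ZMod 2) : a ≠ 0 → a = 1 := by revert a; decide

section

variable {V : Type} [Fintype V]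

/-- sum of a character over a subgroup -/
lemma sum_ch (H : Finset (V → ZMod 2)) (hadd : ∀ a ∈ H, ∀ b ∈ H, a + b ∈ H)
    (l : (V → ZMod 2) → ZMod 2) (hl : ∀ a b, l (a + b) = l a + l b) :
    ∑ z ∈ H, ch (l z) = if ∀ z ∈ H, l z = 0 then (H.card : ℤ) else 0 := by
  split_ifs with h
  · rw [Finset.sum_congr rfl fun z hz => by rw [h z hz, ch_zero]]
    simp
  · push Not at h
    obtain ⟨w, hw, hw0⟩ := h
    have hw1 := ne_zero_iff_one _ hw0
    have h2 : ∀ z : V → ZMod 2, z + w + w = z := by
      intro z
      funext p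
      simp only [Pi.add_apply]
      rw [add_assoc, CharTwo.add_self_eq_zero, add_zero]
    have h1 : ∑ z ∈ H, ch (l z) = ∑ z ∈ H, ch (l (z + w)) := by
      refine Finset.sum_nbij' (fun z => z + w) (fun z => z + w) (fun z hz => hadd z hz w hw)
        (fun z hz => hadd z hz w hw) (fun z _ => h2 z) (fun z _ => h2 z) (fun z _ => ?_)
      rw [h2]
    have h3 : ∑ z ∈ H, ch (l (z + w)) = -∑ z ∈ H, ch (l z) := by
      rw [← Finset.sum_neg_distrib]
      refine Finset.sum_congr rfl fun z _ => ?_
      rw [hl, hw1, ch_add]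
      have : ch 1 = -1 := rfl
      rw [this]
      ring
    rw [h3] at h1
    linarith

lemma dot_zero {w : V → ZMod 2} : (∀ z ∈ (univ : Finset (V → ZMod 2)), ∑ p, z p * w p = 0) ↔
    w = 0 := by
  constructor
  · intro h
    funext p
    have := h (Pi.single p 1) (mem_univ _)
    rw [Finset.sum_eq_single p] at this
    · simpa using this
    · intro q _ hq
      rw [Pi.single_eq_of_ne hq, zero_mul]
    · intro hp
      exact absurd (mem_univ p) hp
  · rintro rfl z _
    simp

/-- the equations of `Rw`, left side -/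
def Lx (N : V → V → ZMod 2) (x : V → ZMod 2) (p : V) : ZMod 2 := ∑ q, (x q + x p) * N p q

/-- the equations of `IsLk` -/
def Ty' (N : V → V → ZMod 2) (y : V → ZMod 2) (p : V) : ZMod 2 :=
  ∑ q, (y q * N q p + y p * N p q)

/-- the right side -/
def vy (e y : V → ZMod 2) (p : V) : ZMod 2 := e p * y p + e p * ∑ q, e q * y q

lemma dual (N : V → V → ZMod 2) (x z : V → ZMod 2) :
    ∑ p, z p * Lx N x p = ∑ p, x p * Ty' N z p := by
  unfold Lx Ty'
  simp only [Finset.mul_sum, mul_add, add_mul, Finset.sum_add_distrib]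
  congr 1
  · rw [Finset.sum_comm]
    refine Finset.sum_congr rfl fun p _ => Finset.sum_congr rfl fun q _ => ?_
    ring
  · refine Finset.sum_congr rfl fun p _ => Finset.sum_congr rfl fun q _ => ?_
    ring

lemma dot_vy (e y z : V → ZMod 2) : ∑ p, z p * vy e y p = Bf e y z := by
  unfold vy Bf
  have h1 : ∀ p, z p * (e p * y p + e p * ∑ q, e q * y q) =
      e p * y p * z p + (∑ q, e q * y q) * (e p * z p) := fun p => by ring
  simp only [h1, Finset.sum_add_distrib, ← Finset.mul_sum]
  rw [add_comm]

lemma lk_add (N : V → V → ZMod 2) {a b : V → ZMod 2} (ha : IsLk N a) (hb : IsLk N b) :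
    IsLk N (a + b) := by
  intro p
  have h : ∑ q, ((a + b) q * N q p + (a + b) p * N p q) =
      ∑ q, (a q * N q p + a p * N p q) + ∑ q, (b q * N q p + b p * N p q) := by
    rw [← Finset.sum_add_distrib]
    refine Finset.sum_congr rfl fun q _ => ?_
    simp only [Pi.add_apply]
    ring
  rw [h, ha p, hb p, add_zero]

lemma bf_add (e y a b : V → ZMod 2) : Bf e y (a + b) = Bf e y a + Bf e y b := by
  rw [← dot_vy, ← dot_vy, ← dot_vy, ← Finset.sum_add_distrib]
  refine Finset.sum_congr rfl fun p _ => ?_
  simp only [Pi.add_apply]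
  ring

lemma dot_add (w a b : V → ZMod 2) :
    ∑ p, (a + b) p * w p = ∑ p, a p * w p + ∑ p, b p * w p := by
  rw [← Finset.sum_add_distrib]
  refine Finset.sum_congr rfl fun p _ => ?_
  simp only [Pi.add_apply]
  ring

end

/-- SLX-LIN -/
theorem t_LIN : S_LIN := by
  intro V _ N e
  set K : Finset (V → ZMod 2) := univ.filter fun y => IsLk N y with hK
  set R : Finset (V → ZMod 2) := univ.filter fun y => IsRad N e y with hR
  have hRw : ∀ x y : V → ZMod 2, Rw N e x y ↔ Lx N x + vy e y = 0 := by
    intro x y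
    constructor
    · intro h
      funext p
      exact CharTwo.add_eq_zero.2 (h p)
    · intro h p
      exact CharTwo.add_eq_zero.1 (congrFun h p)
  -- the number of solutions for given `y`
  have hq : ((Fintype.card (V → ZMod 2) : ℕ) : ℤ) ≠ 0 := by
    have : 0 < Fintype.card (V → ZMod 2) := Fintype.card_pos
    positivity
  have key : ∀ y : V → ZMod 2,
      ((univ.filter fun x : V → ZMod 2 => Rw N e x y).card : ℤ) = ∑ z ∈ K, ch (Bf e y z) := by
    intro y
    apply mul_left_cancel₀ hq
    have e1 : ((Fintype.card (V → ZMod 2) : ℕ) : ℤ) *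
        ((univ.filter fun x : V → ZMod 2 => Rw N e x y).card : ℤ) =
        ∑ x : V → ZMod 2, ∑ z : V → ZMod 2, ch (∑ p, z p * (Lx N x + vy e y) p) := by
      rw [Finset.card_filter]
      push_cast
      rw [Finset.mul_sum]
      refine Finset.sum_congr rfl fun x _ => ?_
      rw [sum_ch univ (fun _ _ _ _ => mem_univ _) (fun z => ∑ p, z p * (Lx N x + vy e y) p)
        (fun a b => dot_add _ a b)]
      by_cases h : Rw N e x y
      · rw [if_pos h, if_pos (dot_zero.2 ((hRw x y).1 h)), mul_one, Finset.card_univ]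
      · rw [if_neg h, if_neg (fun h' => h ((hRw x y).2 (dot_zero.1 h'))), mul_zero]
    have e2 : ∀ x z : V → ZMod 2, ch (∑ p, z p * (Lx N x + vy e y) p) =
        ch (∑ p, x p * Ty' N z p) * ch (Bf e y z) := by
      intro x z
      rw [← ch_add, ← dual, ← dot_vy, ← Finset.sum_add_distrib]
      congr 1
      refine Finset.sum_congr rfl fun p _ => ?_
      simp only [Pi.add_apply]
      ring
    rw [e1, Finset.sum_comm, Finset.mul_sum]
    simp only [e2]
    rw [hK, Finset.sum_filter]
    refine Finset.sum_congr rfl fun z _ => ?_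
    rw [← Finset.sum_mul, sum_ch univ (fun _ _ _ _ => mem_univ _)
      (fun x => ∑ p, x p * Ty' N z p) (fun a b => dot_add _ a b)]
    by_cases h : IsLk N z
    · have h0 : Ty' N z = 0 := funext h
      rw [if_pos h, if_pos (dot_zero.2 h0), Finset.card_univ]
    · rw [if_neg h, if_neg (show ¬ ∀ a ∈ (univ : Finset (V → ZMod 2)),
        ∑ p, a p * Ty' N z p = 0 from fun h' => h fun p => congrFun (dot_zero.1 h') p), zero_mul]
  have key2 : ∀ y : V → ZMod 2, ∑ z ∈ K, ch (Bf e y z) =
      if ∀ z ∈ K, Bf e y z = 0 then (K.card : ℤ) else 0 := by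
    intro y
    refine sum_ch K (fun a ha b hb => ?_) (Bf e y) (bf_add e y)
    rw [hK, mem_filter] at ha hb ⊢
    exact ⟨mem_univ _, lk_add N ha.2 hb.2⟩
  have hcount : ((univ.filter fun z : (V → ZMod 2) × (V → ZMod 2) =>
      IsLk N z.2 ∧ Rw N e z.1 z.2).card : ℤ) =
      ∑ y ∈ K, ((univ.filter fun x : V → ZMod 2 => Rw N e x y).card : ℤ) := by
    rw [Finset.card_filter]
    push_cast
    rw [← Finset.univ_product_univ, Finset.sum_product_right, hK, Finset.sum_filter]
    refine Finset.sum_congr rfl fun y _ => ?_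
    by_cases h : IsLk N y
    · rw [if_pos h, Finset.card_filter]
      push_cast
      refine Finset.sum_congr rfl fun x _ => ?_
      simp only [h, true_and]
    · rw [if_neg h]
      refine Finset.sum_eq_zero fun x _ => ?_
      simp only [h, false_and, if_false]
  have hfin : ((univ.filter fun z : (V → ZMod 2) × (V → ZMod 2) =>
      IsLk N z.2 ∧ Rw N e z.1 z.2).card : ℤ) = (K.card : ℤ) * (R.card : ℤ) := by
    rw [hcount]
    simp only [key, key2]
    rw [← Finset.sum_filter, Finset.sum_const, nsmul_eq_mul, mul_comm]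
    have hKR : (K.filter fun y => ∀ z ∈ K, Bf e y z = 0) = R := by
      ext y
      rw [hR, hK]
      simp only [mem_filter, mem_univ, true_and]
      exact Iff.rfl
    rw [hKR]
  exact_mod_cast hfin

end Pool.Agent.N134.SLX
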